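import Mathlib

set_option autoImplicit false

namespace Pool.Agent.Results.MP_32aa3b_co.SmallOrder

open Classical

/-- `Q` is a `q`-kernel of the digraph `A`: it is independent, and every vertex is the endpoint
of a directed path (a list of distinct vertices, consecutive ones joined by arcs) with at most
`q` arcs that starts in `Q`. -/
def IsKernel {V : Type} (A : V → V → Prop) (q : ℕ) (Q : Set V) : Prop :=
  (∀ x ∈ Q, ∀ y ∈ Q, ¬ A x y) ∧
  ∀ y : V, ∃ l : List V, l.Nodup ∧ l.IsChain A ∧ l.length ≤ q + 1 ∧
    (∃ x ∈ Q, l.head? = some x) ∧ l.getLast? = some y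

/-- A digraph of minimum in-degree at least `δ` on at most `2 * δ + 1` vertices has a one-vertex
`q`-kernel for every `q ≥ 2`. -/
theorem result (V : Type) [Fintype V] [Nonempty V] (A : V → V → Prop) (hloop : ∀ v, ¬ A v v)
    (δ : ℕ) (hin : ∀ v, δ ≤ (Finset.univ.filter (fun u => A u v)).card)
    (hcard : Fintype.card V ≤ 2 * δ + 1) (q : ℕ) (hq : 2 ≤ q) :
    ∃ v : V, IsKernel A q {v} := by
  -- a vertex of large out-degree
  obtain ⟨v, hv⟩ : ∃ v, δ ≤ (Finset.univ.filter (fun u => A v u)).card := by
    by_contra hcon
    push Not at hcon
    have h1 : ∑ v : V, (Finset.univ.filter (fun u => A v u)).card < ∑ _v : V, δ :=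
      Finset.sum_lt_sum_of_nonempty Finset.univ_nonempty (fun v _ => hcon v)
    have h2 : ∑ _v : V, δ ≤ ∑ v : V, (Finset.univ.filter (fun u => A u v)).card :=
      Finset.sum_le_sum (fun v _ => hin v)
    have h3 : ∑ v : V, (Finset.univ.filter (fun u => A v u)).card =
        ∑ v : V, (Finset.univ.filter (fun u => A u v)).card := by
      simp only [Finset.card_filter]
      exact Finset.sum_comm
    omega
  refine ⟨v, ?_, ?_⟩
  · intro x hx y hy
    rw [Set.mem_singleton_iff] at hx hy
    subst hx; subst hy
    exact hloop _
  · intro y
    by_cases hy : y = v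
    · subst hy
      exact ⟨[y], by simp, by simp, by simp, ⟨y, rfl, rfl⟩, rfl⟩
    by_cases hvy : A v y
    · refine ⟨[v, y], by simp [Ne.symm hy], by simp [hvy], by simp; omega, ⟨v, rfl, rfl⟩, rfl⟩
    -- a common vertex of the out-neighbourhood of `v` and the in-neighbourhood of `y`
    obtain ⟨w, hw1, hw2⟩ : ∃ w, A v w ∧ A w y := by
      by_contra hcon
      push Not at hcon
      have hd : Disjoint (insert v (Finset.univ.filter (fun u => A v u)))
          (insert y (Finset.univ.filter (fun u => A u y))) := by
        rw [Finset.disjoint_left]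
        intro a ha hb
        simp only [Finset.mem_insert, Finset.mem_filter, Finset.mem_univ, true_and] at ha hb
        rcases ha with ha | ha
        · rcases hb with hb | hb
          · exact hy (hb.symm.trans ha)
          · rw [ha] at hb; exact hvy hb
        · rcases hb with hb | hb
          · rw [hb] at ha; exact hvy ha
          · exact hcon a ha hb
      have h4 := Finset.card_union_of_disjoint hd
      have h5 := Finset.card_le_univ (insert v (Finset.univ.filter (fun u => A v u)) ∪
        insert y (Finset.univ.filter (fun u => A u y)))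
      have h6 : (insert v (Finset.univ.filter (fun u => A v u))).card =
          (Finset.univ.filter (fun u => A v u)).card + 1 :=
        Finset.card_insert_of_notMem (by simp [hloop])
      have h7 : (insert y (Finset.univ.filter (fun u => A u y))).card =
          (Finset.univ.filter (fun u => A u y)).card + 1 :=
        Finset.card_insert_of_notMem (by simp [hloop])
      have h8 := hin y
      omega
    have hvw : v ≠ w := fun h => hloop v (by rw [← h] at hw1; exact hw1)
    have hwy : w ≠ y := fun h => hloop y (by rw [h] at hw2; exact hw2)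
    refine ⟨[v, w, y], by simp [hvw, hwy, Ne.symm hy], by simp [hw1, hw2], by simp; omega,
      ⟨v, rfl, rfl⟩, rfl⟩

end Pool.Agent.Results.MP_32aa3b_co.SmallOrder
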